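import Pool.Agent.helper1.FI3.SpecH

/-!
# Project fi3 (MP_baa4d7_al), block H3, row OR3: orthogonality of columns
-/

set_option autoImplicit false

namespace Pool.Agent.FI3

open Pool.Agent.helper58.DC Pool.Agent.DI Pool.Agent.GR Pool.Agent.OB Pool.Agent.DR Pool.Agent.FI

theorem OR3_apply {G : Type} [Group G] (t : G) (ψ : G → ℂ) (x : G) : cjF t ψ x = ψ (t⁻¹ * x * t) := by
  unfold cjF funMap
  rw [MulAut.conj_inv_apply]

theorem OR3_cv {G : Type} [Group G] (t : G) (z w : G → ℂ) :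
    cv (fun y => z (t⁻¹ * y * t)) (fun y => w (t⁻¹ * y * t)) = fun y => cv z w (t⁻¹ * y * t) := by
  funext g
  show ∑ᶠ x, z (t⁻¹ * x * t) * w (t⁻¹ * (x⁻¹ * g) * t) = ∑ᶠ x, z x * w (x⁻¹ * (t⁻¹ * g * t))
  rw [← finsum_comp_equiv (MulAut.conj t).toEquiv (f := fun x => z (t⁻¹ * x * t) * w (t⁻¹ * (x⁻¹ * g) * t))]
  refine finsum_congr fun x => ?_
  have h2 : (MulAut.conj t).toEquiv x = t * x * t⁻¹ := rfl
  rw [h2]
  have h3 : t⁻¹ * (t * x * t⁻¹) * t = x := by group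
  have h4 : t⁻¹ * ((t * x * t⁻¹)⁻¹ * g) * t = x⁻¹ * (t⁻¹ * g * t) := by group
  rw [h3, h4]

theorem OR3_eS {G : Type} [Group G] [Finite G] (t : G) (H : Subgroup G) (S : Set (G → ℂ)) (y : G) :
    eS (cjS t H) (cjF t '' S) y = eS H S (t⁻¹ * y * t) := by
  have hinj : Function.Injective (cjF t : (G → ℂ) → (G → ℂ)) := by
    intro ψ φ h
    funext x
    have h1 := congrFun h (t * x * t⁻¹)
    rw [OR3_apply, OR3_apply] at h1
    have h2 : t⁻¹ * (t * x * t⁻¹) * t = x := by group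
    rwa [h2] at h1
  have hcard : Nat.card (cjS t H) = Nat.card H :=
    Subgroup.card_map_of_injective (MulAut.conj t).injective
  show (∑ᶠ ψ ∈ cjF t '' S, ψ 1 * ψ y⁻¹) / (Nat.card (cjS t H) : ℂ) =
    (∑ᶠ ψ ∈ S, ψ 1 * ψ (t⁻¹ * y * t)⁻¹) / (Nat.card H : ℂ)
  rw [hcard, finsum_mem_image hinj.injOn]
  congr 1
  refine finsum_mem_congr rfl fun ψ _ => ?_
  rw [OR3_apply, OR3_apply]
  have h1 : t⁻¹ * 1 * t = 1 := by group
  have h2 : t⁻¹ * y⁻¹ * t = (t⁻¹ * y * t)⁻¹ := by group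
  rw [h1, h2]

theorem OR3 (hRR2 : RR2_stmt) (hCOF : COF_stmt) (hEPR : EPR_stmt) (hQFU3 : QFU3_stmt) (hFEQ : FEQ_stmt) :
    OR3_stmt := by
  intro p M hS G _ _ D x θ χ h P hP i hi a ha u hu hne
  have hr := h.rt
  have hDL : D ≤ cz P := Q1_D_le hr hP
  have hDT : D ≤ TT M D θ ⊓ cz P := le_inf ((le_cz_of_com hr.com).trans cz_le_TT) hDL
  have hpe : ∀ y ∈ D, PEl p y := fun y hy => PEl_of_mem hr.dfa.pgrp hy
  have h1r : PReg p (1 : G) := by
    unfold PReg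
    rw [orderOf_one, Nat.dvd_one]
    exact hS.pr.one_lt.ne'
  have h1 := hRR2 p M hS G (cz P) a (hDL ha) 1 (cz P).one_mem u (hDL hu) 1 (cz P).one_mem (hpe a ha) (hpe u hu)
    h1r h1r (Commute.one_right a) (Commute.one_right u) i i hi.idm hi.idm
    (fun y => by rw [mul_one]; exact hi.inv a (hDT ha) y) (fun y => by rw [mul_one]; exact hi.inv u (hDT hu) y)
    ?_
  · rw [mul_one, mul_one] at h1
    exact h1
  intro z hz w hw hzu hwu
  obtain ⟨j, hj, -, -, hjb, hjc⟩ := hi.loc (Cz (cz P) a) ⟨a, ha, rfl⟩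
  obtain ⟨j', hj', -, -, hjb', hjc'⟩ := hi.loc (Cz (cz P) u) ⟨u, hu, rfl⟩
  have hwa : w * u * w⁻¹ = a := by rw [← hwu]; group
  have hza : z * u * z⁻¹ = a := by rw [← hzu]; group
  have hKK : cjS w (Cz (cz P) u) = Cz (cz P) a := by
    obtain ⟨-, -, h3, -⟩ := hFEQ G M w 1 P P (cz P) θ θ χ
    rw [h3 u, hwa]
    have h4 : cjS w (cz P) = cz P := cj_self hw
    rw [h4]
  -- the difference
  have hd : InM M (co (rs a i) i z w - co j j' z w) := by
    unfold co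
    rw [← finsum_sub_distrib (Set.toFinite _) (Set.toFinite _)]
    refine InM.finsum hS fun x => ?_
    by_cases hx : x ∈ Cz (cz P) a
    · have hx' := mem_Cz.1 hx
      have hrs : rs a i x = i x := if_pos hx'.2
      have hy : w⁻¹ * (x⁻¹ * z) ∈ Cz (cz P) u := by
        refine mem_Cz.2 ⟨(cz P).mul_mem ((cz P).inv_mem hw) ((cz P).mul_mem ((cz P).inv_mem hx'.1) hz), ?_⟩
        have e1 : u * w⁻¹ = w⁻¹ * a := by rw [← hwa]; group
        have e2 : a * x⁻¹ = x⁻¹ * a := by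
          have e3 : Commute a x := hx'.2
          exact e3.inv_right
        have e4 : a * z = z * u := by rw [← hza]; group
        calc u * (w⁻¹ * (x⁻¹ * z)) = (u * w⁻¹) * (x⁻¹ * z) := by group
          _ = w⁻¹ * (a * x⁻¹) * z := by rw [e1]; group
          _ = w⁻¹ * x⁻¹ * (a * z) := by rw [e2]; group
          _ = w⁻¹ * (x⁻¹ * z) * u := by rw [e4]; group
      rw [hrs]
      have e : i x * i (w⁻¹ * (x⁻¹ * z)) - j x * j' (w⁻¹ * (x⁻¹ * z)) =
          (i x - j x) * i (w⁻¹ * (x⁻¹ * z)) + j x * (i (w⁻¹ * (x⁻¹ * z)) - j' (w⁻¹ * (x⁻¹ * z))) := by ring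
      rw [e]
      exact (InM.mul_right hS (hjc x hx) (hi.idm.int _)).add hS (InM.mul_left hS (hj.int x) (hjc' _ hy))
    · have hrs : rs a i x = 0 := by
        unfold rs
        by_cases hax : a * x = x * a
        · rw [if_pos hax]
          exact hi.idm.sup x fun hxL => hx (mem_Cz.2 ⟨hxL, hax⟩)
        · exact if_neg hax
      rw [hrs, hj.sup x hx, zero_mul, zero_mul, sub_zero]
      exact InM.zero hS
  have h0 : co j j' z w = 0 := by
    obtain ⟨-, -, -, -, h5, -⟩ := hCOF G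
    rw [h5]
    have hz0 : cv j (fun t => j' (w⁻¹ * t * w)) = 0 := by
      refine hEPR G (Cz (cz P) a) (Bl M (Cz (cz P) a) θ) (cjF w '' Bl M (Cz (cz P) u) θ) (fun ψ hψ => hψ.1) ?_ ?_
        j _ hj.sup ?_ hjb ?_
      · rintro _ ⟨φ, hφ, rfl⟩
        obtain ⟨-, -, -, h3, -⟩ := hFEQ G M w 1 P P (Cz (cz P) u) θ φ χ
        rw [← hKK]
        exact h3.1 hφ.1
      · rintro _ hψ ⟨φ, hφ, rfl⟩
        have hw' : w * u * w⁻¹ ∈ D := by rw [hwa]; exact ha
        obtain ⟨k, hk, hkT⟩ := hQFU3 p M hS G D x θ χ h P hP u hu w hw hw' φ hφ.1 hφ.2.symm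
          (by rw [hwa]; exact hψ.2.symm)
        rw [hwa] at hk
        obtain ⟨hkL, hka⟩ := mem_Cz.1 hk
        refine hne (k * w) ⟨hkT, (cz P).mul_mem hkL hw⟩ ?_
        calc k * w * u * (k * w)⁻¹ = k * (w * u * w⁻¹) * k⁻¹ := by group
          _ = a * k * k⁻¹ := by rw [hwa, hka]
          _ = a := by group
      · intro t ht
        refine hj'.sup _ fun h2 => ht ?_
        rw [← hKK]
        refine Subgroup.mem_map.2 ⟨_, h2, ?_⟩
        show w * (w⁻¹ * t * w) * w⁻¹ = t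
        group
      · have e : eS (Cz (cz P) a) (cjF w '' Bl M (Cz (cz P) u) θ) =
            fun y => eBl M (Cz (cz P) u) θ (w⁻¹ * y * w) := by
          funext y
          rw [← hKK]
          exact OR3_eS w _ _ y
        rw [e, OR3_cv, hjb']
    rw [hz0]
    rfl
  rwa [h0, sub_zero] at hd

end Pool.Agent.FI3
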